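import Mathlib
import Pool.Agent.Y939.NC.Reg

set_option autoImplicit false

/-!
# The SHGH conjecture for almost regular vectors of multiplicities

There is an `N0` such that for every vector `w` of multiplicities and general points of the complex
projective plane the linear system of the curves of degree `d` with these multiplicities has the
expected dimension, if on some `k` of the points `w` is at most a regular vector `v`, equal to it or
with `χ (d; v) ≥ 0`, and at most `1` at the other points (`Pool.Agent.Y939.NC.Below`). In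
particular vectors which are regular on some of the points and at most `1` at the others are
nonspecial in EVERY degree.

Regular (`Pool.Agent.Y939.NC.Regular`) are: constant vectors on `k ≥ 37` (or `k = 21`) points, the
vectors of numbers `m` and `m + 1` on `k ≥ N0` points (or on `4 N ≥ 144`, `4 ^ (j + 2)`,
`9 * 4 ^ (j + 1)`, `13 * 4 ^ j` points), those with at most `r` different values in `[1, μ]` if
`40000 r μ ^ 2 ≤ ∑ v i ^ 2`, and all those with values at most `μ` if
`25000 (μ + 1) ^ 2 ≤ ∑ v i`, or `μ ≥ 2` and `150 μ ^ 3 ≤ ∑ v i`.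
-/

namespace Pool.Agent.Results.MP_6e81d8_ag.AlmostRegularVectors

open MvPolynomial Pool.Agent.TH167.SHDefs Pool.Agent.Y939.NC

/-- The dimension of the linear system of the plane curves of degree `d` with multiplicities at
least `w i` at the points `P i`. -/
noncomputable def dimension {n : ℕ} (P : Fin n → Fin 2 → ℂ) (d : ℕ) (w : Fin n → ℕ) : ℤ :=
  (Module.finrank ℂ ↥(sys P d w) : ℤ) - 1

/-- The virtual dimension. -/
def vdim {n : ℕ} (d : ℕ) (w : Fin n → ℕ) : ℤ :=
  ((d + 2).choose 2 : ℤ) - 1 - ∑ i, ((w i + 1).choose 2 : ℤ)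

/-- The property holds for all `n`-tuples of points outside some hypersurface. -/
def ForGeneral {n : ℕ} (p : (Fin n → Fin 2 → ℂ) → Prop) : Prop :=
  ∃ F : MvPolynomial (Fin n × Fin 2) ℂ, F ≠ 0 ∧ ∀ P : Fin n → Fin 2 → ℂ,
    eval (fun ij : Fin n × Fin 2 => P ij.1 ij.2) F ≠ 0 → p P

theorem result : ∃ N0 : ℕ, ∀ (n d : ℕ) (w : Fin n → ℕ), Below N0 d w →
    ForGeneral fun P => dimension P d w = max (vdim d w) (-1) := by
  obtain ⟨N0, hN0⟩ := reg_exp
  refine ⟨N0, fun n d w hw => ?_⟩
  obtain ⟨F, hF, hF'⟩ := Pool.Agent.TH442.NF.to_open (d := d) (w := w)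
    fun {K} _ _ P hP => below_exp hN0 hw hP
  refine ⟨F.map (algebraMap ℚ ℂ), Pool.Agent.H932R3.map_ne_zero_of hF, fun P hP => ?_⟩
  rw [MvPolynomial.eval_map] at hP
  have h1 : Module.finrank ℂ ↥(sys P d w) =
      Nat.choose (d + 2) 2 - ∑ i, Nat.choose (w i + 1) 2 := hF' (L := ℂ) P hP
  have h2 : ∑ i, ((w i + 1).choose 2 : ℤ) = ((∑ i, Nat.choose (w i + 1) 2 : ℕ) : ℤ) := by
    push_cast
    rfl
  unfold dimension vdim
  rw [h1, h2]
  omega

end Pool.Agent.Results.MP_6e81d8_ag.AlmostRegularVectors
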