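import Mathlib
import Pool.Agent.Y939.WN.Large

set_option autoImplicit false

/-!
# The SHGH conjecture for every vector of multiplicities, outside a window

Let `w` be ANY vector of `n` multiplicities, `S` a set of points and `μ` a number with `w i ≤ μ` for
`i ∈ S` and `w i ≤ 1` for `i ∉ S` (for instance all points and `μ = max w i`). If
`∑_S w i + 4 |(d + 2).choose 2 - ∑_S (w i + 1).choose 2| ≥ 25000 (μ + 1) ^ 2`, then the linear system
of the plane curves of degree `d` with these multiplicities at general points has the expected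
dimension. In particular vectors with `∑ w i ≥ 25000 (max w i + 1) ^ 2` are nonspecial in every
degree, and every vector is nonspecial in all degrees with `|vdim + 1| ≥ 6250 (max w i + 1) ^ 2`.
-/

namespace Pool.Agent.Results.MP_6e81d8_ag.EveryVector

open MvPolynomial Pool.Agent.TH167.SHDefs Pool.Agent.Y939.WN

/-- The dimension of the linear system of the plane curves of degree `d` with multiplicities at
least `w i` at the points `P i`. -/
noncomputable def dimension {n : ℕ} (P : Fin n → Fin 2 → ℂ) (d : ℕ) (w : Fin n → ℕ) : ℤ :=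
  (Module.finrank ℂ ↥(sys P d w) : ℤ) - 1

/-- The virtual dimension. -/
def vdim {n : ℕ} (d : ℕ) (w : Fin n → ℕ) : ℤ :=
  ((d + 2).choose 2 : ℤ) - 1 - ∑ i, ((w i + 1).choose 2 : ℤ)

/-- The property holds for all `n`-tuples of points outside some hypersurface. -/
def ForGeneral {n : ℕ} (p : (Fin n → Fin 2 → ℂ) → Prop) : Prop :=
  ∃ F : MvPolynomial (Fin n × Fin 2) ℂ, F ≠ 0 ∧ ∀ P : Fin n → Fin 2 → ℂ,
    eval (fun ij : Fin n × Fin 2 => P ij.1 ij.2) F ≠ 0 → p P

theorem result (n d μ : ℕ) (w : Fin n → ℕ) (S : Finset (Fin n)) (h1 : ∀ i ∈ S, w i ≤ μ)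
    (h2 : ∀ i ∉ S, w i ≤ 1)
    (h3 : 25000 * ((μ : ℤ) + 1) ^ 2 ≤ ∑ i ∈ S, (w i : ℤ) +
      4 * |((d + 2).choose 2 : ℤ) - ∑ i ∈ S, ((w i + 1).choose 2 : ℤ)|) :
    ForGeneral fun P => dimension P d w = max (vdim d w) (-1) := by
  obtain ⟨F, hF, hF'⟩ := Pool.Agent.TH442.NF.to_open (d := d) (w := w)
    fun {K} _ _ P hP => large_exp ⟨S, μ, h1, h2, h3⟩ hP
  refine ⟨F.map (algebraMap ℚ ℂ), Pool.Agent.H932R3.map_ne_zero_of hF, fun P hP => ?_⟩
  rw [MvPolynomial.eval_map] at hP
  have h1 : Module.finrank ℂ ↥(sys P d w) =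
      Nat.choose (d + 2) 2 - ∑ i, Nat.choose (w i + 1) 2 := hF' (L := ℂ) P hP
  have h2 : ∑ i, ((w i + 1).choose 2 : ℤ) = ((∑ i, Nat.choose (w i + 1) 2 : ℕ) : ℤ) := by
    push_cast
    rfl
  unfold dimension vdim
  rw [h1, h2]
  omega

end Pool.Agent.Results.MP_6e81d8_ag.EveryVector
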